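import Mathlib
import Pool.Agent.R594.Lp.Powers
import Pool.Agent.W684.FM.Ambient
import Pool.Agent.Results.MP_f6eb07_gt.PowersMA

/-!
# MP_f50f0f_gt: it is consistent with ZFC that the answer is yes for all spaces

(1) A preordered set of conditions forces Martin's axiom for `ℵ₁` dense sets, with all cardinals
preserved. (2) The two forms of this axiom are equivalent. (3) It implies that, for every Tychonoff
space `X` such that every closed subspace of `C_p(X)` is separable, `L_p(X)` is perfectly normal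
(and even hereditarily Lindelöf, as are all finite powers of `X`).

`C_p(X)` is `↥{f : X → ℝ | Continuous f}` with the subspace topology from the product `X → ℝ`,
and `L_p(X)` is the set of finite combinations of point evaluations with the subspace topology
from the product `C(X, ℝ) → ℝ`, exactly as in the frozen statement `S14225`.

The forcing language is the one of `Pool.Agent.Helper669.Forcing`: a sentence is the set of the
conditions which force it, `fnot`, `fand`, `fall` are the primitive connectives and `fimp`, `fex`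
are defined from them classically; a name for a subset of a ground model set `X` is a map sending
`x : X` to a set of conditions, and `meets N` says that the generic filter meets `N`. The sentence
`MartinHolds P Om1` is the translation of the proposition `MartinFor Om1` (both are in
`Pool.Agent.W684.FM.Defs`), which is equivalent to `MartinAxiomAleph1`, Martin's axiom for `ℵ₁`
dense sets.
-/

set_option autoImplicit false

namespace Pool.Agent.Results.MP_f50f0f_gt.ConsistentlyYes

open TopologicalSpace Topology Cardinal Set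
open Pool.Agent.Helper669.Forcing Pool.Agent.W684.FM Pool.Agent.W684
open Pool.Agent.R594.Lp (Cp LpS ClSep ev rep mk ext_ev ev_mk mk_cont powers_spread)

/-- Every family of open sets has a countable subfamily with the same union. -/
def HereditarilyLindelof (Z : Type) [TopologicalSpace Z] : Prop :=
  ∀ 𝒪 : Set (Set Z), (∀ O ∈ 𝒪, IsOpen O) → ∃ 𝒞 ⊆ 𝒪, 𝒞.Countable ∧ ⋃₀ 𝒞 = ⋃₀ 𝒪

theorem martin_of {h : MartinAxiomAleph1} :
    Pool.Agent.Results.MP_f6eb07_gt.PowersMA.MartinAxiomAlephOne := by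
  intro P _ _ hP 𝒟 h𝒟 hd
  exact h P hP 𝒟 h𝒟 hd

/-- Discrete subspaces of finite powers are countable. -/
theorem spread_powers {X : Type} [TopologicalSpace X] [T35Space X] (h : ClSep (Cp X)) (n : ℕ)
    (s : Set (Fin n → X)) (hs : DiscreteTopology ↥s) : s.Countable := by
  have H : ∀ a : s, ∃ O : Set (Fin n → X), IsOpen O ∧ a.1 ∈ O ∧ ∀ b : s, a ≠ b → b.1 ∉ O := by
    intro a
    have h1 : IsOpen ({a} : Set s) := isOpen_discrete _
    obtain ⟨O, hO, hOa⟩ := isOpen_induced_iff.1 h1
    refine ⟨O, hO, ?_, fun b hab hb => ?_⟩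
    · have : a ∈ Subtype.val ⁻¹' O := by rw [hOa]; rfl
      exact this
    · have : b ∈ Subtype.val ⁻¹' O := hb
      rw [hOa] at this
      exact hab (Set.mem_singleton_iff.1 this).symm
  choose O hO haO hOb using H
  have := powers_spread h n (fun a : s => a.1) O hO haO hOb
  exact Set.countable_coe_iff.1 this

/-- Discrete subspaces of powers with a finite index type are countable. -/
theorem spread_fintype {X : Type} [TopologicalSpace X] [T35Space X] (h : ClSep (Cp X)) (κ : Type)
    [Fintype κ] (D : Set (κ → X)) (hD : DiscreteTopology ↥D) : D.Countable := by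
  let e : (κ → X) ≃ₜ (Fin (Fintype.card κ) → X) :=
    Homeomorph.piCongrLeft (Y := fun _ => X) (Fintype.equivFin κ)
  have h1 : (e '' D).Countable := by
    refine spread_powers h _ _ ?_
    have h2 : DiscreteTopology ↥D := hD
    exact (e.isEmbedding.homeomorphImage D).symm.isEmbedding.discreteTopology
  exact Set.countable_of_injective_of_countable_image e.injective.injOn h1

theorem hl_powers (hMA : MartinAxiomAleph1) {X : Type} [TopologicalSpace X] [T35Space X]
    (h : ClSep (Cp X)) (n : ℕ) : HereditarilyLindelof (Fin n → X) := by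
  have h2 : ∀ D : Set {f : (Fin n → X) → ℝ // Continuous f}, DiscreteTopology D →
      D.Countable := fun D hD =>
    Pool.Agent.Results.MP_f6eb07_gt.PowersMA.spread_Cp
      (Pool.Agent.Results.MP_f6eb07_gt.PowersMA.spread_pow_pow
        (fun κ _ D hD => spread_fintype h κ D hD)) D hD
  exact Pool.Agent.Results.MP_f6eb07_gt.PowersMA.hlin (martin_of (h := hMA)) _ h2

/-- The product of a hereditarily Lindelöf space and a second countable space is hereditarily
Lindelöf. -/
theorem hl_prod {Y Z : Type} [TopologicalSpace Y] [TopologicalSpace Z]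
    [SecondCountableTopology Z] (hY : HereditarilyLindelof Y) : HereditarilyLindelof (Y × Z) := by
  classical
  intro 𝒪 h𝒪
  let 𝒲 : Set Z → Set (Set Y) := fun B => {W | IsOpen W ∧ ∃ O ∈ 𝒪, W ×ˢ B ⊆ O}
  choose 𝒞 h𝒞 hc hu using fun B : Set Z => hY (𝒲 B) (fun W hW => hW.1)
  have hsel : ∀ (B : Set Z) (W : Set Y), ∃ O : Set (Y × Z), W ∈ 𝒲 B → O ∈ 𝒪 ∧ W ×ˢ B ⊆ O := by
    intro B W
    by_cases hW : W ∈ 𝒲 B
    · obtain ⟨O, hO, hO'⟩ := hW.2
      exact ⟨O, fun _ => ⟨hO, hO'⟩⟩
    · exact ⟨∅, fun h => absurd h hW⟩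
  choose O hO using hsel
  refine ⟨⋃ B ∈ countableBasis Z, O B '' 𝒞 B, ?_, ?_, ?_⟩
  · intro V hV
    simp only [mem_iUnion] at hV
    obtain ⟨B, hB, W, hW, rfl⟩ := hV
    exact (hO B W (h𝒞 B hW)).1
  · exact (countable_countableBasis Z).biUnion fun B _ => (hc B).image _
  · apply Subset.antisymm
    · rintro p ⟨V, hV, hp⟩
      simp only [mem_iUnion] at hV
      obtain ⟨B, hB, W, hW, rfl⟩ := hV
      exact ⟨_, (hO B W (h𝒞 B hW)).1, hp⟩
    · rintro ⟨y, z⟩ ⟨V, hV, hp⟩
      obtain ⟨W, B', hW, hB', hyW, hzB', hWB⟩ := isOpen_prod_iff.1 (h𝒪 V hV) y z hp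
      obtain ⟨B, hB, hzB, hBB'⟩ :=
        (isBasis_countableBasis Z).exists_subset_of_mem_open hzB' hB'
      have hWm : W ∈ 𝒲 B := ⟨hW, V, hV, (prod_mono_right hBB').trans hWB⟩
      have hy : y ∈ ⋃₀ 𝒞 B := by
        rw [hu B]
        exact ⟨W, hWm, hyW⟩
      obtain ⟨W', hW', hyW'⟩ := hy
      refine ⟨O B W', ?_, (hO B W' (h𝒞 B hW')).2 ⟨hyW', hzB⟩⟩
      simp only [mem_iUnion]
      exact ⟨B, hB, W', hW', rfl⟩

/-- A countable union of continuous images of hereditarily Lindelöf spaces is hereditarily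
Lindelöf. -/
theorem hl_images {L : Type} [TopologicalSpace L] {Y : ℕ → Type} [∀ n, TopologicalSpace (Y n)]
    (hY : ∀ n, HereditarilyLindelof (Y n)) (g : ∀ n, Y n → L) (hg : ∀ n, Continuous (g n))
    (hs : ∀ l, ∃ n y, g n y = l) : HereditarilyLindelof L := by
  intro 𝒪 h𝒪
  have H : ∀ n, ∃ 𝒞 ⊆ 𝒪, 𝒞.Countable ∧ ∀ y, g n y ∈ ⋃₀ 𝒪 → g n y ∈ ⋃₀ 𝒞 := by
    intro n
    obtain ⟨𝒞, h1, h2, h3⟩ := hY n ((fun O => g n ⁻¹' O) '' 𝒪) (by
      rintro _ ⟨O, hO, rfl⟩
      exact (h𝒪 O hO).preimage (hg n))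
    obtain ⟨𝒟, hD, hDc, hD'⟩ : ∃ 𝒟 ⊆ 𝒪, 𝒟.Countable ∧ (fun O => g n ⁻¹' O) '' 𝒟 = 𝒞 := by
      obtain ⟨𝒟, hD, hbij⟩ := exists_subset_bijOn 𝒪 (fun O => g n ⁻¹' O)
      refine ⟨{O ∈ 𝒟 | g n ⁻¹' O ∈ 𝒞}, fun O hO => hD hO.1, ?_, ?_⟩
      · refine MapsTo.countable_of_injOn (f := fun O => g n ⁻¹' O) (t := 𝒞) (fun O hO => hO.2)
          (hbij.injOn.mono fun O hO => hO.1) h2
      · apply Subset.antisymm
        · rintro _ ⟨O, hO, rfl⟩
          exact hO.2
        · intro V hV
          obtain ⟨O, hO, hOV⟩ := hbij.surjOn (h1 hV)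
          exact ⟨O, ⟨hO, by
            show g n ⁻¹' O ∈ 𝒞
            have : g n ⁻¹' O = V := hOV
            rw [this]; exact hV⟩, hOV⟩
    refine ⟨𝒟, hD, hDc, ?_⟩
    rintro y ⟨O, hO, hy⟩
    have h4 : y ∈ ⋃₀ 𝒞 := by
      rw [h3]
      exact ⟨_, ⟨O, hO, rfl⟩, hy⟩
    obtain ⟨V, hV, hyV⟩ := h4
    rw [← hD'] at hV
    obtain ⟨O', hO', rfl⟩ := hV
    exact ⟨O', hO', hyV⟩
  choose 𝒞 h1 h2 h3 using H
  refine ⟨⋃ n, 𝒞 n, iUnion_subset h1, countable_iUnion h2, ?_⟩
  apply Subset.antisymm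
  · exact sUnion_subset_sUnion (iUnion_subset h1)
  · intro l hl
    obtain ⟨n, y, rfl⟩ := hs l
    obtain ⟨O, hO, hy⟩ := h3 n y hl
    exact ⟨O, mem_iUnion.2 ⟨n, hO⟩, hy⟩

theorem hl_Lp (hMA : MartinAxiomAleph1) {X : Type} [TopologicalSpace X] [T35Space X]
    (h : ClSep (Cp X)) : HereditarilyLindelof (LpS X) := by
  refine hl_images (Y := fun n => (Fin n → X) × (Fin n → ℝ)) (fun n => hl_prod (hl_powers hMA h n))
    (fun n p => mk p.1 p.2) mk_cont ?_
  intro ψ
  obtain ⟨n, z, c, -, -, hψ⟩ := rep ψ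
  refine ⟨n, (z, c), ext_ev fun f => ?_⟩
  rw [hψ f]
  exact ev_mk z c f

/-- Hereditarily Lindelöf regular spaces are perfectly normal. -/
theorem perfect_of_hl {L : Type} [TopologicalSpace L] [RegularSpace L]
    (h : HereditarilyLindelof L) : NormalSpace L ∧ ∀ s : Set L, IsClosed s → IsGδ s := by
  refine Pool.Agent.R594.Lp.perfect_of_covers fun F hF => ?_
  obtain ⟨𝒞, h1, h2, h3⟩ := h {O | IsOpen O ∧ Disjoint (closure O) F} (fun O hO => hO.1)
  refine Pool.Agent.R594.Lp.sepCover_of_countable 𝒞 h2 (fun U hU => h1 hU) ?_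
  intro x hx
  rw [h3]
  obtain ⟨V, hV, hVc, hVF⟩ := exists_mem_nhds_isClosed_subset (hF.isOpen_compl.mem_nhds hx)
  refine ⟨interior V, ⟨isOpen_interior, ?_⟩, mem_interior_iff_mem_nhds.2 hV⟩
  rw [Set.disjoint_left]
  intro y hy hyF
  exact hVF ((closure_minimal interior_subset hVc) hy) hyF

/-- (1) Some preordered set of conditions forces Martin's axiom for `ℵ₁` dense sets, preserving all
cardinals. (2) The two forms of this axiom are equivalent. (3) It implies, for every Tychonoff space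
`X` such that every closed subspace of `C_p(X)` is separable, that `L_p(X)` is perfectly normal,
and that `L_p(X)` and all finite powers of `X` are hereditarily Lindelöf. -/
theorem result :
    (∃ (P : Type) (_ : Preorder P), Nonempty P ∧ ∀ p : P,
      p ∈ CardinalsPreserved.{0, 0} P ∧ p ∈ OmegaOnePreserved P ∧ p ∈ MartinHolds P Om1) ∧
    (MartinFor Om1 ↔ MartinAxiomAleph1) ∧
    (MartinAxiomAleph1 →
      ∀ (X : Type) [TopologicalSpace X] [T35Space X],
      (∀ S : Set ↥{f : X → ℝ | Continuous f}, IsClosed S → SeparableSpace ↥S) →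
      (NormalSpace ↥(Set.range
          (fun a : X →₀ ℝ => fun f : C(X, ℝ) => a.sum (fun x r => r * f x))) ∧
        ∀ s : Set ↥(Set.range
            (fun a : X →₀ ℝ => fun f : C(X, ℝ) => a.sum (fun x r => r * f x))),
          IsClosed s → IsGδ s) ∧
      HereditarilyLindelof ↥(Set.range
          (fun a : X →₀ ℝ => fun f : C(X, ℝ) => a.sum (fun x r => r * f x))) ∧
      ∀ n : ℕ, HereditarilyLindelof (Fin n → X)) := by
  refine ⟨exists_forcing Om1, martinFor_om1_iff, fun hMA X _ _ h => ?_⟩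
  have h1 : HereditarilyLindelof (LpS X) := hl_Lp hMA h
  exact ⟨perfect_of_hl h1, h1, hl_powers hMA h⟩

end Pool.Agent.Results.MP_f50f0f_gt.ConsistentlyYes
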