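import Mathlib
import Pool.Agent.R594.Lp.Normal
import Pool.Agent.R594.Lp.Powers

/-!
# MP_f50f0f_gt: perfect normality of `L_p(X)` from the closed subspaces of `C_p(X × X)`

`C_p(Y)` is `↥{f : Y → ℝ | Continuous f}` with the subspace topology from the product `Y → ℝ`,
and `L_p(X)` is the set of finite combinations of point evaluations with the subspace topology
from the product `C(X, ℝ) → ℝ`, exactly as in the frozen statement `S14225`.

The finite powers of `C_p(X)` are continuous images of `C_p(X × X)` (restrict a function to the
slices `X × {a l}`), so all their closed subspaces are separable, which implies that every open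
subset of `L_p(X)` is a countable union of basic ones.
-/

set_option autoImplicit false

namespace Pool.Agent.Results.MP_f50f0f_gt.SquareHypothesis

open TopologicalSpace Topology Pool.Agent.R594.Lp

/-- From `C_p(X × X)` to the finite powers of `C_p(X)`. -/
theorem clSep_pow_of_prod {X : Type} [TopologicalSpace X] [T35Space X]
    (h : ClSep (Cp (X × X))) (k : ℕ) : ClSep (Fin k → Cp X) := by
  rcases finite_or_infinite X with hX | hX
  · intro S _
    infer_instance
  · let a : Fin k → X := fun l => Infinite.natEmbedding X l
    have ha : Function.Injective a := fun i j hij =>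
      Fin.ext ((Infinite.natEmbedding X).injective hij)
    refine h.image (g := fun F l => ⟨fun x => F.1 (x, a l), F.2.comp (by fun_prop)⟩) ?_ ?_
    · refine continuous_pi fun l => Continuous.subtype_mk (continuous_pi fun x => ?_) _
      exact (continuous_apply (x, a l)).comp continuous_subtype_val
    · intro f
      have hu : ∀ l : Fin k, ∃ u : Cp X, ∀ m, u.1 (a m) = if m = l then 1 else 0 := by
        intro l
        obtain ⟨u, hu⟩ := exists_fun a ha (fun m => if m = l then 1 else 0)
        exact ⟨u, hu⟩
      choose u hu using hu
      refine ⟨⟨fun z => ∑ l, (f l).1 z.1 * (u l).1 z.2, ?_⟩, ?_⟩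
      · refine continuous_finsetSum _ fun l _ => ?_
        exact ((f l).2.comp continuous_fst).mul ((u l).2.comp continuous_snd)
      · funext m
        apply Subtype.ext
        funext x
        show ∑ l, (f l).1 x * (u l).1 (a m) = (f m).1 x
        simp [hu]

/-- For every Tychonoff space `X` such that every closed subspace of `C_p(X × X)` is separable,
`L_p(X)` is perfectly normal. -/
theorem result (X : Type) [TopologicalSpace X] [T35Space X]
    (h : ∀ S : Set ↥{f : X × X → ℝ | Continuous f}, IsClosed S → SeparableSpace ↥S) :
    NormalSpace ↥(Set.range
        (fun a : X →₀ ℝ => fun f : C(X, ℝ) => a.sum (fun x r => r * f x))) ∧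
      ∀ s : Set ↥(Set.range
          (fun a : X →₀ ℝ => fun f : C(X, ℝ) => a.sum (fun x r => r * f x))),
        IsClosed s → IsGδ s :=
  perfNormal_of_pow (clSep_pow_of_prod h)

end Pool.Agent.Results.MP_f50f0f_gt.SquareHypothesis
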