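import Mathlib
import Pool.Agent.R594.Lp.Normal
import Pool.Agent.R594.Lp.Powers

/-!
# MP_f50f0f_gt: the answer is yes for spaces with a base of clopen sets, and for spaces which
contain a closed copy of their double

`C_p(X)` is `↥{f : X → ℝ | Continuous f}` with the subspace topology from the product `X → ℝ`,
and `L_p(X)` is the set of finite combinations of point evaluations with the subspace topology
from the product `C(X, ℝ) → ℝ`, exactly as in the frozen statement `S14225`.

Finite sequences of real functions are coded by one function with values in a closed subset of the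
line homeomorphic to `ℕ × 2^ℕ` (if `X` has a base of clopen sets), or by the restrictions of one
function to closed copies of `X` in `X`; so all closed subspaces of the finite powers of `C_p(X)`
are separable, which implies that every open subset of `L_p(X)` is a countable union of basic ones.
-/

set_option autoImplicit false

namespace Pool.Agent.Results.MP_f50f0f_gt.ZeroDimensional

open TopologicalSpace Topology Pool.Agent.R594.Lp

/-- Finite powers, if the space maps onto its square. -/
theorem clSep_pow_of_square {Y : Type} [TopologicalSpace Y] (h : ClSep Y) (p : Y → Y × Y)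
    (hp : Continuous p) (hs : Function.Surjective p) (k : ℕ) : ClSep (Fin k → Y) := by
  have hne : Nonempty Y ∨ IsEmpty Y := (isEmpty_or_nonempty Y).symm
  rcases hne with hne | hne
  · obtain ⟨g, hg, hgs⟩ : ∃ g : Y → (Fin k → Y), Continuous g ∧ Function.Surjective g := by
      induction k with
      | zero =>
        refine ⟨fun _ => Fin.elim0, continuous_const, fun f => ⟨hne.some, ?_⟩⟩
        exact funext fun i => Fin.elim0 i
      | succ k ih =>
        obtain ⟨g, hg, hgs⟩ := ih
        refine ⟨fun y => Fin.cons (p y).1 (g (p y).2), ?_, ?_⟩
        · refine continuous_pi fun i => ?_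
          refine Fin.cases ?_ (fun j => ?_) i
          · simpa [Function.comp_def] using continuous_fst.comp hp
          · simpa [Function.comp_def] using
              (continuous_apply j).comp (hg.comp (continuous_snd.comp hp))
        · intro f
          obtain ⟨z, hz⟩ := hgs (fun j => f j.succ)
          obtain ⟨y, hy⟩ := hs (f 0, z)
          refine ⟨y, ?_⟩
          funext i
          refine Fin.cases ?_ (fun j => ?_) i
          · simp [hy]
          · simp [hy, hz]
    exact h.image hg hgs
  · intro S hS
    cases k with
    | zero =>
      have : Countable ↥S := inferInstance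
      infer_instance
    | succ k =>
      have : IsEmpty ↥S := ⟨fun s => hne.false (s.1 0)⟩
      infer_instance

/-- If `X` contains a closed copy of `X ⊕ X` then `C_p(X)` maps onto its square. -/
theorem square_of_double {X : Type} [TopologicalSpace X] [NormalSpace X] {e : X ⊕ X → X}
    (he : IsClosedEmbedding e) :
    ∃ p : Cp X → Cp X × Cp X, Continuous p ∧ Function.Surjective p := by
  have h1 : Continuous fun x : X => e (Sum.inl x) := he.continuous.comp continuous_inl
  have h2 : Continuous fun x : X => e (Sum.inr x) := he.continuous.comp continuous_inr
  refine ⟨fun f => (⟨fun x => f.1 (e (Sum.inl x)), f.2.comp h1⟩,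
    ⟨fun x => f.1 (e (Sum.inr x)), f.2.comp h2⟩), ?_, ?_⟩
  · refine Continuous.prodMk ?_ ?_
    · refine Continuous.subtype_mk (continuous_pi fun x => ?_) _
      exact (continuous_apply (e (Sum.inl x))).comp continuous_subtype_val
    · refine Continuous.subtype_mk (continuous_pi fun x => ?_) _
      exact (continuous_apply (e (Sum.inr x))).comp continuous_subtype_val
  · rintro ⟨f, g⟩
    obtain ⟨F, hF⟩ := ContinuousMap.exists_extension (Y := ℝ) he
      ⟨Sum.elim f.1 g.1, continuous_sum_dom.2 ⟨f.2, g.2⟩⟩
    have hF' : ∀ z, F (e z) = Sum.elim f.1 g.1 z := fun z => congrArg (fun u => u z) hF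
    refine ⟨⟨F, F.continuous⟩, Prod.ext (Subtype.ext (funext fun x => ?_))
      (Subtype.ext (funext fun x => ?_))⟩
    · exact hF' (Sum.inl x)
    · exact hF' (Sum.inr x)

/-- Let `X` be a Tychonoff space such that every closed subspace of `C_p(X)` is separable. If
the clopen subsets of `X` form a base, or `X ⊕ X` is homeomorphic to a closed subspace of `X`, then
`L_p(X)` is perfectly normal. -/
theorem result (X : Type) [TopologicalSpace X] [T35Space X]
    (hX : IsTopologicalBasis {s : Set X | IsClopen s} ∨ ∃ e : X ⊕ X → X, IsClosedEmbedding e)
    (h : ∀ S : Set ↥{f : X → ℝ | Continuous f}, IsClosed S → SeparableSpace ↥S) :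
    NormalSpace ↥(Set.range
        (fun a : X →₀ ℝ => fun f : C(X, ℝ) => a.sum (fun x r => r * f x))) ∧
      ∀ s : Set ↥(Set.range
          (fun a : X →₀ ℝ => fun f : C(X, ℝ) => a.sum (fun x r => r * f x))),
        IsClosed s → IsGδ s := by
  refine perfNormal_of_pow fun k => ?_
  rcases hX with hb | ⟨e, he⟩
  · exact clSep_pow (sz_of_clopen_base hb h) h k
  · have hn : NormalSpace (Fin 1 → X) := (powers_perfNormal h 1).1
    have : NormalSpace X := (Homeomorph.funUnique (Fin 1) X).symm.isClosedEmbedding.normalSpace
    obtain ⟨p, hp, hs⟩ := square_of_double he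
    exact clSep_pow_of_square h p hp hs k

end Pool.Agent.Results.MP_f50f0f_gt.ZeroDimensional
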